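import Mathlib
import Pool.Agent.R529.SM.U5

set_option autoImplicit false

/-!
# All the intervals `(x, x + c √x)` in random models of the primes

The question is whether `(x, x + √x)` contains a prime for every real `x ≥ 117`.  We consider EVERY
sequential random model of the primes: the integers are decided one after the other, only integers
coprime to a fixed `Q` can be chosen, and the conditional probability of choosing `n + 1` (coprime
to `Q`) given the past is asymptotic to `(Q / φ(Q)) / log n`; no independence is assumed (for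
`Q = 1` Cramér's model and the Hawkins random sieve are examples).  Let `c > 0`, let `N(x)` be the
number of members in the open interval `(x, x + c √x)` and `C(x)` the sum of the conditional
probabilities over it, given the respective past.  Almost surely, simultaneously for ALL large real
`x`, `|N(x) - C(x)| ≤ (1 + o(1)) √c x^(1/4)`, and this is best possible at all scales: every interval
`[X, 16 X]`, `X` large, contains a square `x` with `N(x) - C(x) ≥ (1 - ε) √c x^(1/4)`.  Moreover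
`N(x) ~ c √x / log x` uniformly in real `x`, in particular `(x, x + c √x)` contains members for all
large `x`.
-/

open MeasureTheory Filter
open scoped Topology

namespace Pool.Agent.Results.MP_b8a134_nt.AllIntervalsSievedModels

/-- the number of members `m` of `S` with `x < m < x + c √x` -/
noncomputable def count (S : Set ℕ) (c x : ℝ) : ℕ :=
  Set.ncard {m : ℕ | m ∈ S ∧ x < m ∧ (m : ℝ) < x + c * √x}

/-- the integers `m ≥ 0` with `x < m < x + c √x` -/
noncomputable def between (c x : ℝ) : Finset ℕ :=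
  (Finset.range ⌈x + c * √x⌉₊).filter (fun m => x < (m : ℝ))

/-- the sum over the integers `m` with `x < m < x + c √x` of the conditional probabilities of `A m`
given `ℱ (m - 1)` -/
noncomputable def condSum {Ω : Type} {mΩ : MeasurableSpace Ω} (μ : Measure Ω) (ℱ : Filtration ℕ mΩ)
    (A : ℕ → Set Ω) (c x : ℝ) (ω : Ω) : ℝ :=
  ∑ m ∈ between c x, (μ[(A m).indicator (fun _ => (1 : ℝ)) | ℱ (m - 1)]) ω

open Pool.Agent.R528.RM Pool.Agent.R291.RMW Pool.Agent.R529.SM

lemma between_eq {c x : ℝ} (hc : 0 < c) (hx : 0 < x) : between c x = Finset.Ioc ⌊x⌋₊ (tt c x) := by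
  have h0 : 0 < ⌈x + c * √x⌉₊ := Nat.ceil_pos.2 (by positivity)
  ext m
  unfold between tt
  rw [Finset.mem_filter, Finset.mem_range, Finset.mem_Ioc, Nat.floor_lt hx.le]
  constructor
  · rintro ⟨h1, h2⟩
    exact ⟨h2, by omega⟩
  · rintro ⟨h1, h2⟩
    exact ⟨by omega, h1⟩

lemma count_eq {Ω : Type} {A : ℕ → Set Ω} {ω : Ω} {c x : ℝ} (hc : 0 < c) (hx : 0 < x) :
    (count {k | ω ∈ A k} c x : ℝ) = Ncl A (Finset.Ioc ⌊x⌋₊ (tt c x)) ω := by
  rw [Ncl_eq, ← between_eq hc hx]
  unfold count between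
  congr 2
  ext m
  simp only [Set.mem_ofPred_eq, Finset.mem_filter, Finset.mem_range, Nat.lt_ceil]
  tauto

lemma condSum_eq {Ω : Type} {mΩ : MeasurableSpace Ω} {μ : Measure Ω} {ℱ : Filtration ℕ mΩ}
    {A : ℕ → Set Ω} {ω : Ω} {c x : ℝ} (hc : 0 < c) (hx : 0 < x) :
    condSum μ ℱ A c x ω = VS μ ℱ A (Finset.Ioc ⌊x⌋₊ (tt c x)) ω := by
  unfold condSum VS
  rw [between_eq hc hx]
  refine Finset.sum_congr rfl fun m hm => ?_
  have := (Finset.mem_Ioc.1 hm).1
  unfold dens
  rw [show m - 1 + 1 = m by omega]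

lemma diff_eq {Ω : Type} {mΩ : MeasurableSpace Ω} {μ : Measure Ω} [IsProbabilityMeasure μ] {ℱ : Filtration ℕ mΩ}
    {A : ℕ → Set Ω} {ω : Ω} {c x : ℝ} (hc : 0 < c) (hx : 0 < x) :
    (count {k | ω ∈ A k} c x : ℝ) - condSum μ ℱ A c x ω = CS μ ℱ A (Finset.Ioc ⌊x⌋₊ (tt c x)) ω := by
  rw [count_eq hc hx, condSum_eq hc hx, CS_eq]

end Pool.Agent.Results.MP_b8a134_nt.AllIntervalsSievedModels

open Pool.Agent.Results.MP_b8a134_nt.AllIntervalsSievedModels

set_option maxHeartbeats 2000000 in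
/-- Let `A n` be the event that `n` belongs to a random set adapted to a filtration `ℱ`, let
`Q ≥ 1`, let no integer which is not coprime to `Q` be chosen, and let the conditional probability of
`A (n + 1)` given `ℱ n`, times `log n`, tend to `Q / φ(Q)` along the `n` with `n + 1` coprime to `Q`,
almost surely.  Let `c > 0`.  Then almost surely: for every `ε > 0`,
* for all large real `x` the number of members in `(x, x + c √x)` differs from the sum of the
  conditional probabilities by at most `(1 + ε) √(c √x)`;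
* for all large real `X` there is a natural number `k` such that `x = k²` lies in `[X, 16 X]` and the
  number of members in `(x, x + c √x)` exceeds the sum of the conditional probabilities by at least
  `(1 - ε) √(c √x)`;

and the number of members in `(x, x + c √x)` is asymptotic to `c √x / log x` as the real number `x`
tends to infinity. -/
theorem Pool.Agent.Results.MP_b8a134_nt.AllIntervalsSievedModels.result
    {Ω : Type} [mΩ : MeasurableSpace Ω] (μ : Measure Ω) [IsProbabilityMeasure μ]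
    (ℱ : Filtration ℕ mΩ) (A : ℕ → Set Ω) (hA : ∀ n, MeasurableSet[ℱ n] (A n))
    (Q : ℕ) (hQ : 0 < Q) (hcop : ∀ n, ¬ Nat.Coprime n Q → A n = ∅)
    (hd : ∀ᵐ ω ∂μ, Tendsto (fun n : ℕ =>
      (μ[(A (n + 1)).indicator (fun _ => (1 : ℝ)) | ℱ n]) ω * Real.log n)
      (atTop ⊓ 𝓟 {n : ℕ | Nat.Coprime (n + 1) Q}) (𝓝 ((Q : ℝ) / Nat.totient Q)))
    (c : ℝ) (hc : 0 < c) :
    ∀ᵐ ω ∂μ, (∀ ε : ℝ, 0 < ε →
        (∀ᶠ x : ℝ in atTop, |(count {k | ω ∈ A k} c x : ℝ) - condSum μ ℱ A c x ω| ≤ (1 + ε) * √(c * √x)) ∧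
        (∀ᶠ X : ℝ in atTop, ∃ k : ℕ, X ≤ (k : ℝ) ^ 2 ∧ (k : ℝ) ^ 2 ≤ 16 * X ∧
          condSum μ ℱ A c ((k : ℝ) ^ 2) ω + (1 - ε) * √(c * √((k : ℝ) ^ 2)) ≤ count {k | ω ∈ A k} c ((k : ℝ) ^ 2))) ∧
      Tendsto (fun x : ℝ => (count {k | ω ∈ A k} c x : ℝ) / (c * √x / Real.log x)) atTop (𝓝 1) := by
  have hprof := Pool.Agent.R528.RM.dens_profile (μ := μ) (ℱ := ℱ) hA Q hQ hcop hd
  have h01 : ∀ᵐ ω ∂μ, ∀ n, 0 ≤ Pool.Agent.R528.RM.dens μ ℱ A n ω ∧ Pool.Agent.R528.RM.dens μ ℱ A n ω ≤ 1 :=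
    ae_all_iff.2 fun n => Pool.Agent.R528.RM.dens01 hA n
  filter_upwards [Pool.Agent.R529.SM.unif_upper (μ := μ) (ℱ := ℱ) hA hQ hprof hc,
    Pool.Agent.R529.SM.count_all (μ := μ) (ℱ := ℱ) hA hQ hprof hc,
    Pool.Agent.R291.RMW.wd_law (μ := μ) (ℱ := ℱ) hA hQ hprof (Pool.Agent.R529.SM.wd_sq hc), h01] with ω k1 k2 k3 k4
  refine ⟨fun ε hε => ⟨?_, ?_⟩, ?_⟩
  · have hbig : Tendsto (fun x : ℝ => ε / 2 * √(c * √x)) atTop atTop :=
      (Real.tendsto_sqrt_atTop.comp (Real.tendsto_sqrt_atTop.const_mul_atTop hc)).const_mul_atTop (by positivity)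
    filter_upwards [(tendsto_nat_floor_atTop (α := ℝ)).eventually (k1 (ε / 2) (by positivity)), eventually_gt_atTop (0 : ℝ),
      hbig.eventually_ge_atTop (c + 2)] with x g1 g2 g3
    rw [diff_eq hc g2]
    have g4 := Pool.Agent.R529.SM.CS_transfer (μ := μ) (ℱ := ℱ) k4 hc g2
    have g5 : √(c * √((⌊x⌋₊ : ℕ) : ℝ)) ≤ √(c * √x) := by
      apply Real.sqrt_le_sqrt
      exact mul_le_mul_of_nonneg_left (Real.sqrt_le_sqrt (Nat.floor_le g2.le)) hc.le
    have g6 := mul_le_mul_of_nonneg_left g5 (show 0 ≤ 1 + ε / 2 by positivity)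
    have g7 := abs_le.1 g1
    have g8 := abs_le.1 g4
    rw [abs_le]
    constructor <;> linarith [g7.1, g7.2, g8.1, g8.2]
  · set m : ℕ := ⌈c⌉₊ with hm
    have hm1 : 1 ≤ m := Nat.one_le_ceil_iff.2 hc
    have hmr : (1 : ℝ) ≤ m := by exact_mod_cast hm1
    set η : ℝ := min (ε / 4) (1 / 2) with hη
    have hη0 : 0 < η := lt_min (by positivity) (by norm_num)
    have hη1 : η ≤ 1 / 2 := min_le_right _ _
    have hηε : η ≤ ε / 4 := min_le_left _ _
    obtain ⟨j₀, hj₀⟩ := eventually_atTop.1 (k3 η hη0).2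
    have hbig : Tendsto (fun X : ℝ => √(c * √X)) atTop atTop :=
      Real.tendsto_sqrt_atTop.comp (Real.tendsto_sqrt_atTop.const_mul_atTop hc)
    filter_upwards [eventually_ge_atTop ((m : ℝ) ^ 2 * 4 ^ (j₀ + 1)), eventually_ge_atTop (1 : ℝ),
      hbig.eventually_ge_atTop ((c + 2) / (ε / 4)), hbig.eventually_ge_atTop (1 / √η)] with X g1 g2 g3 g4
    have hX0 : 0 < X := by linarith
    have hm2 : (0 : ℝ) < (m : ℝ) ^ 2 := by positivity
    have g5 : 1 ≤ X / (m : ℝ) ^ 2 := by
      rw [le_div_iff₀ hm2, one_mul]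
      refine le_trans ?_ g1
      have : (1 : ℝ) ≤ 4 ^ (j₀ + 1) := one_le_pow₀ (by norm_num)
      nlinarith
    obtain ⟨k, hk1, hk2⟩ := exists_nat_pow_near g5 (show (1 : ℝ) < 4 by norm_num)
    rw [le_div_iff₀ hm2] at hk1
    rw [div_lt_iff₀ hm2] at hk2
    have hkj : j₀ ≤ k := by
      by_contra hcon
      push Not at hcon
      have : (4 : ℝ) ^ (k + 1) ≤ 4 ^ (j₀ + 1) := pow_le_pow_right₀ (by norm_num) (by omega)
      nlinarith
    obtain ⟨n, hn1, hn2, hn3⟩ := hj₀ (k + 1) (by omega)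
    have e4 : ∀ j : ℕ, (4 : ℝ) ^ j = (2 ^ j) ^ 2 := fun j => by
      rw [← pow_mul, mul_comm, pow_mul]
      norm_num
    have hn1' : (2 : ℝ) ^ (k + 1) < n := by exact_mod_cast hn1
    have hn2' : (n : ℝ) ≤ 2 ^ (k + 2) := by exact_mod_cast hn2
    have hn0 : (0 : ℝ) < n := lt_trans (by positivity) hn1'
    have hsq1 : (4 : ℝ) ^ (k + 1) ≤ (n : ℝ) ^ 2 := by
      rw [e4]
      exact pow_le_pow_left₀ (by positivity) hn1'.le 2
    have hsq2 : (n : ℝ) ^ 2 ≤ 4 ^ (k + 2) := by
      rw [e4]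
      exact pow_le_pow_left₀ hn0.le hn2' 2
    refine ⟨m * n, ?_, ?_, ?_⟩
    · push_cast
      rw [mul_pow]
      nlinarith
    · push_cast
      rw [mul_pow]
      have : (4 : ℝ) ^ (k + 2) = 16 * 4 ^ k := by ring
      nlinarith
    · have hx0 : (0 : ℝ) < ((m * n : ℕ) : ℝ) ^ 2 := by
        push_cast
        positivity
      have hfl : ⌊((m * n : ℕ) : ℝ) ^ 2⌋₊ = (m * n) ^ 2 := by
        rw [← Nat.cast_pow, Nat.floor_natCast]
      have h5 := diff_eq (μ := μ) (ℱ := ℱ) (A := A) (ω := ω) hc hx0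
      have h6 := Pool.Agent.R529.SM.CS_transfer (μ := μ) (ℱ := ℱ) k4 hc hx0
      rw [hfl] at h5 h6
      have h7 := (abs_le.1 h6).1
      have hs : √(((m * n : ℕ) : ℝ) ^ 2) = (m : ℝ) * n := by
        rw [← Nat.cast_pow]
        exact Pool.Agent.R529.SM.sqrt_sq_nat m n
      rw [hs]
      set Y : ℝ := c * ((m : ℝ) * n) with hY
      have hXx : X ≤ ((m * n : ℕ) : ℝ) ^ 2 := by
        push_cast
        rw [mul_pow]
        nlinarith
      have hsX : √(c * √X) ≤ √Y := by
        apply Real.sqrt_le_sqrt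
        apply mul_le_mul_of_nonneg_left _ hc.le
        rw [← hs]
        exact Real.sqrt_le_sqrt hXx
      have hsY : 0 < √Y := Real.sqrt_pos.2 (by positivity)
      -- the length of the window
      have h8 := Pool.Agent.R529.SM.yy_sub_ge c ((m * n) ^ 2)
      rw [Pool.Agent.R529.SM.sqrt_sq_nat] at h8
      have h9 : (1 - η) * √Y ≤ √(2 / 2 * ((Pool.Agent.R529.SM.yy c ((m * n) ^ 2) : ℝ) - ((m * n) ^ 2 : ℕ))) := by
        apply Real.le_sqrt_of_sq_le
        rw [mul_pow, Real.sq_sqrt (by positivity)]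
        have h10 : 1 ≤ η * Y := by
          have h11 : 1 / √η ≤ √Y := g4.trans hsX
          have h12 : (1 / √η) ^ 2 ≤ √Y ^ 2 := pow_le_pow_left₀ (by positivity) h11 2
          rw [div_pow, one_pow, Real.sq_sqrt hη0.le, Real.sq_sqrt (by positivity), div_le_iff₀ hη0] at h12
          linarith
        have h13 : (1 - η) ^ 2 * Y ≤ (1 - η) * Y := by
          have : (1 - η) ^ 2 ≤ 1 - η := by nlinarith
          exact mul_le_mul_of_nonneg_right this (by positivity)
        linarith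
      have h10 := mul_le_mul_of_nonneg_left h9 (show 0 ≤ 1 - η by linarith)
      have h11 : (c + 2) ≤ ε / 4 * √Y := by
        have := g3.trans hsX
        rw [div_le_iff₀ (by positivity)] at this
        linarith
      have h12 : (1 - ε) * √Y ≤ (1 - η) * ((1 - η) * √Y) - (c + 2) := by
        have : (1 - η) * (1 - η) ≥ 1 - 2 * η := by nlinarith
        have h14 : (1 - 2 * η) * √Y ≤ (1 - η) * (1 - η) * √Y := mul_le_mul_of_nonneg_right this hsY.le
        have p1 : (ε / 4) * √Y ≤ (ε - 2 * η) * √Y := mul_le_mul_of_nonneg_right (by linarith) hsY.le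
        have p2 : (1 - η) * ((1 - η) * √Y) = (1 - η) * (1 - η) * √Y := by ring
        have p3 : (1 - ε) * √Y = (1 - 2 * η) * √Y - (ε - 2 * η) * √Y := by ring
        rw [p2, p3]
        linarith
      have h13 := h10.trans hn3
      linarith
  · refine k2.congr' ?_
    filter_upwards [eventually_gt_atTop (0 : ℝ)] with x hx
    rw [count_eq hc hx]
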