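import Mathlib
import Pool.Agent.R463.NarLin

set_option autoImplicit false

/-!
# Narrow progressions in arbitrary sets of primes between `X` and `X + √X`

Almost all elements of every set of primes or almost primes in `(X, X + √X]` lie in narrow arithmetic progressions
inside the set and the interval.
-/

namespace Pool.Agent.Results.MP_b8a134_nt.NarrowProgressions

open Finset Filter

/-- The integers all prime factors of which are larger than `m ^ (1 / r)`. -/
def RoughAt (r : ℕ) : Set ℕ := {m | ∀ p : ℕ, p.Prime → p ∣ m → (m : ℝ) ^ (1 / (r : ℝ)) < (p : ℝ)}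

/-- `m` is a term of an `l`-term arithmetic progression with difference at most `D`, all terms of which
are elements of `A` in the interval `(a, b]`. -/
def InProgression (A : Set ℕ) (l : ℕ) (D : ℝ) (a b m : ℕ) : Prop :=
  ∃ u d : ℕ, 1 ≤ d ∧ (d : ℝ) ≤ D ∧ (∀ i < l, u + i * d ∈ A ∧ a < u + i * d ∧ u + i * d ≤ b) ∧
    ∃ i < l, m = u + i * d

lemma InProgression.mono {A : Set ℕ} {l : ℕ} {D D' : ℝ} {a b m : ℕ} (h : InProgression A l D a b m)
    (hD : D ≤ D') : InProgression A l D' a b m := by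
  obtain ⟨u, d, h1, h2, h3⟩ := h
  exact ⟨u, d, h1, h2.trans hD, h3⟩

/-- all primes are in `RoughAt r` -/
lemma prime_mem (r : ℕ) (hr : 2 ≤ r) (q : ℕ) (hq : q.Prime) : q ∈ RoughAt r := by
  intro p hp hd
  have h1 : p = q := (Nat.prime_dvd_prime_iff_eq hp hq).1 hd
  have h2 : (1 : ℝ) < q := by exact_mod_cast hq.one_lt
  have hr2 : (2 : ℝ) ≤ r := by exact_mod_cast hr
  rw [h1]
  have h5 : (1 / (r : ℝ)) < 1 := by
    rw [div_lt_one (by linarith)]
    linarith
  have := Real.rpow_lt_rpow_of_exponent_lt h2 h5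
  rwa [Real.rpow_one] at this

open Classical in
/-- the general theorem for the form `m` -/
lemma narrow (θ : ℝ) (hθ : 0 < θ) (r : ℕ) (hr : 2 ≤ r) (l : ℕ) (hl : 2 ≤ l) (ε : ℝ) (hε : 0 < ε) :
    ∃ B : ℕ, ∀ᶠ X : ℕ in atTop, ∀ Y : ℕ, (X : ℝ) ^ θ ≤ Y → Y ≤ X →
      ∀ A : Set ℕ, A ⊆ RoughAt r →
        (((Ioc X (X + Y)).filter (fun m : ℕ =>
          m ∈ A ∧ ¬ InProgression A l (Real.log X ^ B) X (X + Y) m)).card : ℝ) ≤
        ε * (Y / Real.log X) := by
  obtain ⟨B, hB⟩ := Pool.Agent.R463.NL.narrow_lin one_pos (fun _ : Fin 1 => 1) (fun _ => 0) (fun _ => one_pos)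
    (fun _ => by rw [Nat.cast_one]; exact isCoprime_one_left) (fun i j _ _ => Subsingleton.elim i j) (fun p hp => ⟨1, fun _ h => by
      have h1 : (p : ℤ) ∣ ((1 : ℕ) : ℤ) := by simpa using h
      exact hp.one_lt.ne' (Nat.dvd_one.1 (Int.natCast_dvd_natCast.1 h1))⟩) θ hθ r hr l hl ε hε
  refine ⟨B, ?_⟩
  filter_upwards [hB] with X hX Y hXY hYX A hA
  have h := hX Y hXY hYX A (fun m hm => by
    intro i p hp hd
    refine hA hm p hp ?_
    have h1 : (p : ℤ) ∣ (m : ℤ) := by simpa using hd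
    exact_mod_cast h1)
  rw [pow_one] at h
  exact h

lemma sqrt_ge (X : ℕ) (hX : 16 ≤ X) : (X : ℝ) ^ ((1 : ℝ) / 3) ≤ (Nat.sqrt X : ℕ) := by
  obtain ⟨s, hs⟩ : ∃ s, s = Nat.sqrt X := ⟨_, rfl⟩
  rw [← hs]
  have h1 : X < (s + 1) * (s + 1) := by
    rw [hs]
    exact Nat.lt_succ_sqrt X
  have h2 : 4 ≤ s := by
    rw [hs]
    exact Nat.le_sqrt.2 (by omega)
  have h3 : X ≤ s ^ 3 := by
    have h4 : (s + 1) * (s + 1) ≤ s ^ 3 := by nlinarith [Nat.mul_le_mul_left (s * s) h2]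
    omega
  have hs0 : (0 : ℝ) ≤ s := Nat.cast_nonneg _
  calc (X : ℝ) ^ ((1 : ℝ) / 3) ≤ ((s : ℝ) ^ (3 : ℝ)) ^ ((1 : ℝ) / 3) := by
        apply Real.rpow_le_rpow (Nat.cast_nonneg _) _ (by norm_num)
        have h5 : ((3 : ℕ) : ℝ) = 3 := by norm_num
        rw [← h5, Real.rpow_natCast]
        exact_mod_cast h3
    _ = s := by
        rw [← Real.rpow_mul hs0]
        norm_num

open Classical in
/-- **Narrow progressions between `X` and `X + √X`.** (1) All primes belong to `RoughAt r`, for `r ≥ 2`.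
(2) Let `r, l ≥ 2` and `ε > 0`. There is `B` such that for all large `X` and for EVERY set `A` of integers `m`
without prime factor `≤ m ^ (1 / r)`, for instance every set of primes: all but at most `ε √X / log X` of the
elements of `A` in `(X, X + √X]` are terms of `l`-term arithmetic progressions, contained in the part of `A` in
`(X, X + √X]`, with difference at most `(log X) ^ B`. (`√X` is the integer part of the square root here.) -/
theorem result : (∀ r : ℕ, 2 ≤ r → ∀ q : ℕ, q.Prime → q ∈ RoughAt r) ∧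
    ∀ r : ℕ, 2 ≤ r → ∀ l : ℕ, 2 ≤ l → ∀ ε : ℝ, 0 < ε → ∃ B : ℕ, ∀ᶠ X : ℕ in atTop,
      ∀ A : Set ℕ, A ⊆ RoughAt r →
        (((Ioc X (X + Nat.sqrt X)).filter (fun m : ℕ =>
          m ∈ A ∧ ¬ InProgression A l (Real.log X ^ B) X (X + Nat.sqrt X) m)).card : ℝ) ≤
        ε * ((Nat.sqrt X : ℕ) / Real.log X) := by
  refine ⟨prime_mem, fun r hr l hl ε hε => ?_⟩
  obtain ⟨B, hB⟩ := narrow (1 / 3) (by norm_num) r hr l hl ε hε
  refine ⟨B, ?_⟩
  filter_upwards [hB, eventually_ge_atTop 16] with X h1 h2 A hA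
  exact h1 (Nat.sqrt X) (sqrt_ge X h2) (Nat.sqrt_le_self X) A hA

end Pool.Agent.Results.MP_b8a134_nt.NarrowProgressions
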