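import Pool.Agent.R529.Orb.Fin

set_option autoImplicit false

/-! # MP_b8a134_nt (Schinzel, primes in `(x, x + √x)`): every orbit of `x ↦ x + √x` meets record gaps

The intervals `(x, x + √x)` of the question, put end to end from a real number `x`, have the end
points `T^k x`, `k = 0, 1, 2, …`, where `T t = t + √t`.  For every `ε > 0` there is `κ > 0` such that
for EVERY large real `x` at least `x^(1/4)` of the integers `0 ≤ k < x^(1/4 + ε)` are such that no
prime lies within `κ log x (log₂ x)² log₄ x / (log₃ x)²` of `T^k x` (iterated logarithms; this is the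
order of the record prime gaps of the starting library).

Proof: the square roots `y_k` of the orbit satisfy `y_{k+1} - y_k = 1/2 - g_k` with `g_k` decreasing
and of size `1 / y_k`; after one step of van der Corput's method the sums over the orbit with a
rational frequency `h / q` meet the inequality of Kusmin and Landau, the small defects `g_k` playing
the part of the second derivative; the covering sieve of the starting library
(`Pool.Agent.Y565.RG.crit_count`) does the rest. -/

namespace Pool.Agent.Results.MP_b8a134_nt.OrbitsMeetRecordGaps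

theorem result (ε : ℝ) (hε : 0 < ε) : ∃ κ : ℝ, 0 < κ ∧ ∃ X₀ : ℝ, ∀ x : ℝ, X₀ ≤ x →
    ∃ G : Finset ℕ, x ^ (1 / 4 : ℝ) ≤ (G.card : ℝ) ∧ ∀ k ∈ G, (k : ℝ) < x ^ (1 / 4 + ε) ∧
      ∀ q : ℕ, q.Prime →
        κ * (Real.log x * (Real.log (Real.log x)) ^ 2 *
          Real.log (Real.log (Real.log (Real.log x))) /
            (Real.log (Real.log (Real.log x))) ^ 2) <
          |(q : ℝ) - (fun t : ℝ => t + √t)^[k] x| := by
  obtain ⟨κ, hκ, X₀, h⟩ := Pool.Agent.R529.Orb.main (min ε (1 / 8)) (lt_min hε (by norm_num))
    (min_le_right _ _)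
  refine ⟨κ, hκ, max X₀ 1, fun x hx => ?_⟩
  have hx1 : 1 ≤ x := (le_max_right _ _).trans hx
  obtain ⟨G, hG, hG2⟩ := h x ((le_max_left _ _).trans hx)
  refine ⟨G, hG, fun k hk => ⟨?_, (hG2 k hk).2⟩⟩
  refine (hG2 k hk).1.trans_le ?_
  apply Real.rpow_le_rpow_of_exponent_le hx1
  linarith [min_le_left ε (1 / 8 : ℝ)]

end Pool.Agent.Results.MP_b8a134_nt.OrbitsMeetRecordGaps
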