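import Mathlib
import Pool.Agent.R463.One
import Pool.Agent.Y879.GL.Pattern

set_option autoImplicit false

/-!
# Regular points of arbitrary sets of primes between `X` and `X + √X`

Almost all elements of EVERY set of primes, or of integers without prime factor up to a small power of `X`, in
`(X, X + √X]` see the set in all windows around them with the right order of magnitude, and at all scales with few
exceptions with a constant density on both sides.
-/

namespace Pool.Agent.Results.MP_b8a134_nt.RegularPoints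

open Finset Filter
open Pool.Agent.R463.PS

/-- `m` has no prime factor `p ≤ X ^ (1 / r)` -/
def Good (X r m : ℕ) : Prop := ∀ p : ℕ, p.Prime → (p : ℝ) ≤ (X : ℝ) ^ (1 / (r : ℝ)) → ¬ p ∣ m

/-- the density: the product of `1 - 1 / p` over the primes `p ≤ X ^ (1 / r)` -/
noncomputable def V (X r : ℕ) : ℝ :=
  ∏ p ∈ (Icc 1 ⌊(X : ℝ) ^ (1 / (r : ℝ))⌋₊).filter Nat.Prime, (1 - 1 / (p : ℝ))

lemma good_iff (X r m : ℕ) : Good X r m ↔ Sifted idf X r m := (idf_sift X r m).symm

lemma V_eq (X r : ℕ) : V X r = V1 X r := rfl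

/-- the primes `p > X` are good -/
lemma good_prime {X r p : ℕ} (hX : 1 ≤ X) (hr : 1 ≤ r) (hp : p.Prime) (hXp : X < p) : Good X r p := by
  intro q hq hqX hd
  have h1 : q = p := (Nat.prime_dvd_prime_iff_eq hq hp).1 hd
  have hX1 : (1 : ℝ) ≤ X := by exact_mod_cast hX
  have hr1 : (1 : ℝ) ≤ r := by exact_mod_cast hr
  have h2 : (X : ℝ) ^ (1 / (r : ℝ)) ≤ X := by
    calc (X : ℝ) ^ (1 / (r : ℝ)) ≤ (X : ℝ) ^ (1 : ℝ) :=
          Real.rpow_le_rpow_of_exponent_le hX1 (by rw [div_le_one (by linarith)]; exact hr1)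
      _ = X := Real.rpow_one _
  have h3 : (q : ℝ) ≤ X := hqX.trans h2
  have h4 : q ≤ X := by exact_mod_cast h3
  omega

/-- good integers up to `X ^ 3` have at most `3 r` prime factors -/
lemma good_few {X r m : ℕ} (hX : 2 ≤ X) (hr : 1 ≤ r) (hm : m ≠ 0) (hmX : m ≤ X ^ 3) (h : Good X r m) :
    m.primeFactorsList.length ≤ 3 * r := by
  have hX1 : (1 : ℝ) < X := by exact_mod_cast (by omega : 1 < X)
  have hr1 : (0 : ℝ) < r := by exact_mod_cast (by omega : 0 < r)
  refine Pool.Agent.Y879.GL.few_of_rough ((X : ℝ) ^ (1 / (r : ℝ))) (Real.one_lt_rpow hX1 (by positivity)) m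
    (3 * r) hm ?_ (fun q hq hqm => ?_)
  · rw [← Real.rpow_natCast, ← Real.rpow_mul (by positivity)]
    have e : 1 / (r : ℝ) * ((3 * r : ℕ) : ℝ) = ((3 : ℕ) : ℝ) := by
      push_cast
      field_simp
    rw [e, Real.rpow_natCast]
    exact_mod_cast hmX
  · by_contra hcon
    push Not at hcon
    exact h q hq hcon hqm

lemma sqrt_ge (X : ℕ) (hX : 16 ≤ X) : (X : ℝ) ^ ((1 : ℝ) / 3) ≤ (Nat.sqrt X : ℕ) := by
  obtain ⟨s, hs⟩ : ∃ s, s = Nat.sqrt X := ⟨_, rfl⟩
  rw [← hs]
  have h1 : X < (s + 1) * (s + 1) := by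
    rw [hs]
    exact Nat.lt_succ_sqrt X
  have h2 : 4 ≤ s := by
    rw [hs]
    exact Nat.le_sqrt.2 (by omega)
  have h3 : X ≤ s ^ 3 := by
    have h4 : (s + 1) * (s + 1) ≤ s ^ 3 := by nlinarith [Nat.mul_le_mul_left (s * s) h2]
    omega
  have hs0 : (0 : ℝ) ≤ s := Nat.cast_nonneg _
  calc (X : ℝ) ^ ((1 : ℝ) / 3) ≤ ((s : ℝ) ^ (3 : ℝ)) ^ ((1 : ℝ) / 3) := by
        apply Real.rpow_le_rpow (Nat.cast_nonneg _) _ (by norm_num)
        have h5 : ((3 : ℕ) : ℝ) = 3 := by norm_num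
        rw [← h5, Real.rpow_natCast]
        exact_mod_cast h3
    _ = s := by
        rw [← Real.rpow_mul hs0]
        norm_num

open Classical in
/-- **Regular points of arbitrary sets between `X` and `X + √X`.**

`Regular S V c δ B Y m`: every interval `(m - s, m + t]`, `s, t ≤ Y`, with `c (s + t) V ≥ 1` contains
between `c (s + t) V` and `(s + t) V / c` elements of `S`, and for all scales `1 / V ≤ 2 ^ j ≤ Y` with at
most `B` exceptions there is a density `c ≤ lam ≤ 1 / c` such that all intervals `(m - s, m + t]`,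
`s, t ≤ 2 ^ j`, contain `lam (s + t) V` elements of `S`, up to `δ 2 ^ j V`.

There is `r₀` such that for all `r ≥ r₀` and `ε > 0` there is `c > 0`, and for all `δ > 0` there is `B`, such
that for all large `X`: (1) every prime `p > X` is good, and every good `0 < m ≤ X ^ 3` has at most `3 r` prime
factors; (2) for EVERY set `S` of good integers, for instance every set of primes `> X`: at most `ε √X V`
elements of `S` in `(X, X + √X]` are not regular points of `S`, with `Y = √X`. (`√X` is the integer part of the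
square root here.) -/
theorem result : ∃ r₀ : ℕ, 2 ≤ r₀ ∧ ∀ r : ℕ, r₀ ≤ r → ∀ ε : ℝ, 0 < ε → ∃ c : ℝ, 0 < c ∧ ∀ δ : ℝ, 0 < δ →
    ∃ B : ℕ, ∀ᶠ X : ℕ in atTop,
      ((∀ p : ℕ, p.Prime → X < p → Good X r p) ∧
        ∀ m : ℕ, m ≠ 0 → m ≤ X ^ 3 → Good X r m → m.primeFactorsList.length ≤ 3 * r) ∧
      ∀ S : Set ℕ, (∀ m ∈ S, Good X r m) →
        (((Ioc X (X + Nat.sqrt X)).filter (fun m => m ∈ S ∧ ¬ Regular S (V X r) c δ B (Nat.sqrt X) m)).card : ℝ) ≤
          ε * ((Nat.sqrt X : ℕ) * V X r) := by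
  obtain ⟨r₀, hr₀, h⟩ := one_regular (1 / 3) (by norm_num)
  refine ⟨r₀, hr₀, fun r hr ε hε => ?_⟩
  obtain ⟨c, hc, h1⟩ := h r hr ε hε
  refine ⟨c, hc, fun δ hδ => ?_⟩
  obtain ⟨B, h2⟩ := h1 δ hδ
  refine ⟨B, ?_⟩
  filter_upwards [h2, eventually_ge_atTop 16] with X h1 h2
  refine ⟨⟨fun p hp hnp => good_prime (by omega) (by omega) hp hnp, fun m hm hmn hg =>
    good_few (by omega) (by omega) hm hmn hg⟩, ?_⟩
  intro S hS
  have h4 := h1 X (Nat.sqrt X) (sqrt_ge X h2) (Nat.sqrt_le_self X) (Nat.sqrt_le_self X) S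
    (fun m hm => (good_iff X r m).1 (hS m hm))
  rwa [← V_eq] at h4

end Pool.Agent.Results.MP_b8a134_nt.RegularPoints
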